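import Pool.Agent.Lib.MP_89c171_co.Defs

namespace Pool.Agent.Lib.MP_89c171_co

/-! ### Kernel-friendly machinery (letter `1` is `false`, letter `2` is `true`) -/

def integ (w : List Bool) : Bool → List Bool :=
  List.rec (motive := fun _ => Bool → List Bool) (fun _ => [])
    (fun x _ ih e => Bool.rec (Bool.rec (false :: ih true) (true :: ih false) e)
      (Bool.rec (false :: false :: ih true) (true :: true :: ih false) e) x) w

def dies (w : List Bool) : Bool → Bool → Bool :=
  List.rec (motive := fun _ => Bool → Bool → Bool) (fun p q => or p q)
    (fun x _ ih p q => Bool.rec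
      (Bool.rec (Bool.rec (ih true true) (ih true false) q)
        (Bool.rec (ih false true) (ih false false) q) p)
      (Bool.rec (Bool.rec (ih true false) (ih true true) q)
        (Bool.rec (ih false false) (ih false true) q) p) x) w

def check (n : ℕ) : List Bool → Bool :=
  Nat.rec (motive := fun _ => List Bool → Bool) (fun w => dies w false false)
    (fun _ ih w => Bool.rec (and (ih (integ w false)) (ih (integ w true))) true
      (dies w false false)) n

theorem integ_nil (e : Bool) : integ [] e = [] := rfl

theorem integ_cons_false (w : List Bool) (e : Bool) :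
    integ (false :: w) e = e :: integ w (!e) := by cases e <;> rfl

theorem integ_cons_true (w : List Bool) (e : Bool) :
    integ (true :: w) e = e :: e :: integ w (!e) := by cases e <;> rfl

theorem dies_nil (p q : Bool) : dies [] p q = (p || q) := rfl

theorem dies_cons_false (w : List Bool) (p q : Bool) :
    dies (false :: w) p q = dies w (!p) (!q) := by cases p <;> cases q <;> rfl

theorem dies_cons_true (w : List Bool) (p q : Bool) :
    dies (true :: w) p q = dies w (!p) q := by cases p <;> cases q <;> rfl

theorem check_succ (n : ℕ) (w : List Bool) :
    check (n + 1) w = (dies w false false || (check n (integ w false) && check n (integ w true))) := by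
  change (Bool.rec (motive := fun _ => Bool)
    (and (check n (integ w false)) (check n (integ w true))) true (dies w false false)) = _
  cases dies w false false <;> simp

/-! ### Windows of the sequence -/

/-- The word of `L` letters of `s` starting at position `k`. -/
def win (s : ℕ → ℕ) : ℕ → ℕ → List Bool
  | _, 0 => []
  | k, L + 1 => decide (s k = 2) :: win s (k + 1) L

theorem length_win (s : ℕ → ℕ) : ∀ L k, (win s k L).length = L
  | 0, _ => rfl
  | L + 1, k => by simp [win, length_win s L (k + 1)]

theorem drop_win (s : ℕ → ℕ) : ∀ d L k, (win s k (d + L)).drop d = win s (k + d) L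
  | 0, L, k => by simp
  | d + 1, L, k => by
    rw [show d + 1 + L = (d + L) + 1 by ring]
    simp only [win, List.drop_succ_cons]
    rw [drop_win s d L (k + 1), show k + 1 + d = k + (d + 1) by ring]

theorem take_win (s : ℕ → ℕ) : ∀ m n k, m ≤ n → (win s k n).take m = win s k m
  | 0, n, k, _ => by simp [win]
  | m + 1, 0, k, h => by omega
  | m + 1, n + 1, k, h => by
    simp only [win, List.take_succ_cons]
    rw [take_win s m n (k + 1) (by omega)]

variable {s : ℕ → ℕ}

theorem runStart_succ (s : ℕ → ℕ) (j : ℕ) : runStart s (j + 1) = runStart s j + s j := by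
  simp [runStart, Finset.sum_range_succ]

theorem runStart_mono (s : ℕ → ℕ) : Monotone (runStart s) :=
  monotone_nat_of_le_succ fun n => by rw [runStart_succ]; omega

theorem IsKolakoski.le_runStart (h : IsKolakoski s) (j : ℕ) : j ≤ runStart s j := by
  induction j with
  | zero => simp
  | succ j ih => rw [runStart_succ]; rcases h.1 j with h' | h' <;> omega

theorem IsKolakoski.exists_run (h : IsKolakoski s) (i : ℕ) :
    ∃ j, runStart s j ≤ i ∧ i < runStart s (j + 1) := by
  classical
  have hex : ∃ j, i < runStart s (j + 1) := ⟨i, lt_of_lt_of_le (Nat.lt_succ_self i) (h.le_runStart _)⟩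
  refine ⟨Nat.find hex, ?_, Nat.find_spec hex⟩
  rcases Nat.eq_zero_or_pos (Nat.find hex) with h0 | h0
  · rw [h0]; simp [runStart]
  · have := Nat.find_min hex (m := Nat.find hex - 1) (by omega)
    rw [Nat.sub_add_cancel h0] at this
    omega

/-- the letter at a position of the run with index `j`, as a Boolean -/
theorem IsKolakoski.letter (h : IsKolakoski s) {j i : ℕ} (h1 : runStart s j ≤ i)
    (h2 : i < runStart s (j + 1)) : decide (s i = 2) = decide (¬ Even j) := by
  rw [h.2 j i h1 h2]
  by_cases hj : Even j <;> simp [hj]

theorem not_even_succ (k : ℕ) : decide (¬ Even (k + 1)) = !decide (¬ Even k) := by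
  by_cases hk : Even k <;> simp [hk, Nat.even_add_one]

theorem IsKolakoski.integ_win (h : IsKolakoski s) : ∀ L k,
    integ (win s k L) (decide (¬ Even k)) =
      win s (runStart s k) (runStart s (k + L) - runStart s k)
  | 0, k => by simp [win, integ_nil]
  | L + 1, k => by
    have ih := h.integ_win L (k + 1)
    have hm : runStart s (k + 1) ≤ runStart s (k + 1 + L) := runStart_mono s (by omega)
    rw [show k + (L + 1) = k + 1 + L by ring]
    have hs := runStart_succ s k
    rcases h.1 k with hk | hk
    · have e1 : runStart s (k + 1 + L) - runStart s k
          = (runStart s (k + 1 + L) - runStart s (k + 1)) + 1 := by omega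
      rw [e1]
      simp only [win]
      rw [hk, show (decide ((1 : ℕ) = 2)) = false from rfl, integ_cons_false, ← not_even_succ, ih,
        h.letter (le_refl _) (by omega), hs, hk]
    · have e1 : runStart s (k + 1 + L) - runStart s k
          = (runStart s (k + 1 + L) - runStart s (k + 1)) + 1 + 1 := by omega
      rw [e1]
      simp only [win]
      rw [hk, show (decide ((2 : ℕ) = 2)) = true from rfl, integ_cons_true, ← not_even_succ, ih,
        h.letter (le_refl _) (by omega),
        h.letter (j := k) (i := runStart s k + 1) (by omega) (by omega), hs, hk]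

/-- parity of a number as a Boolean -/
def od (n : ℕ) : Bool := decide (n % 2 = 1)

theorem od_succ (n : ℕ) : od (n + 1) = !od n := by
  unfold od
  rcases Nat.mod_two_eq_zero_or_one n with h | h <;> simp [Nat.add_mod, h]

theorem dies_win (h : IsKolakoski s) : ∀ L k p q,
    dies (win s k L) p q = ((p ^^ od L) || (q ^^ od (runStart s (k + L) - runStart s k)))
  | 0, k, p, q => by simp [win, dies_nil, od]
  | L + 1, k, p, q => by
    have hm : runStart s (k + 1) ≤ runStart s (k + 1 + L) := runStart_mono s (by omega)
    have hs := runStart_succ s k
    rw [show k + (L + 1) = k + 1 + L by ring]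
    simp only [win]
    rcases h.1 k with hk | hk
    · have e1 : runStart s (k + 1 + L) - runStart s k
          = (runStart s (k + 1 + L) - runStart s (k + 1)) + 1 := by omega
      rw [hk, show (decide ((1 : ℕ) = 2)) = false from rfl, dies_cons_false,
        dies_win h L (k + 1), e1, od_succ, od_succ]
      cases p <;> cases q <;> simp
    · have e1 : runStart s (k + 1 + L) - runStart s k
          = (runStart s (k + 1 + L) - runStart s (k + 1)) + 1 + 1 := by omega
      rw [hk, show (decide ((2 : ℕ) = 2)) = true from rfl, dies_cons_true,
        dies_win h L (k + 1), e1, od_succ, od_succ, od_succ]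
      cases p <;> cases q <;> simp

theorem od_true {n : ℕ} (h : od n = true) : n % 2 = 1 := by simpa [od] using h

theorem check_sound (h : IsKolakoski s) : ∀ n k L, check n (win s k L) = true →
    ∃ m ≤ n + 1, ((runStart s)^[m] (k + L) - (runStart s)^[m] k) % 2 = 1
  | 0, k, L, hc => by
    have hd : dies (win s k L) false false = true := hc
    rw [dies_win h] at hd
    simp only [Bool.false_xor, Bool.or_eq_true] at hd
    rcases hd with hd | hd
    · exact ⟨0, by omega, by simpa using od_true hd⟩
    · exact ⟨1, by omega, by simpa using od_true hd⟩
  | n + 1, k, L, hc => by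
    rw [check_succ] at hc
    simp only [Bool.or_eq_true, Bool.and_eq_true] at hc
    rcases hc with hd | hc
    · rw [dies_win h] at hd
      simp only [Bool.false_xor, Bool.or_eq_true] at hd
      rcases hd with hd | hd
      · exact ⟨0, by omega, by simpa using od_true hd⟩
      · exact ⟨1, by omega, by simpa using od_true hd⟩
    · have hc' : check n (integ (win s k L) (decide (¬ Even k))) = true := by
        cases hb : decide (¬ Even k)
        · exact hc.1
        · exact hc.2
      rw [h.integ_win] at hc'
      obtain ⟨m, hm, hm'⟩ := check_sound h n _ _ hc'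
      refine ⟨m + 1, by omega, ?_⟩
      rw [Nat.add_sub_cancel' (runStart_mono s (Nat.le_add_right k L))] at hm'
      simpa [Function.iterate_succ] using hm'

end Pool.Agent.Lib.MP_89c171_co
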