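import Pool.Agent.Lib.MP_89c171_co.Factors

namespace Pool.Agent.Lib.MP_89c171_co

set_option maxRecDepth 100000 in
theorem chk18 : (F18.all fun v => check 16 v) = true := by decide +kernel

end Pool.Agent.Lib.MP_89c171_co
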