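import Pool.Agent.Lib.MP_89c171_co.Factors

namespace Pool.Agent.Lib.MP_89c171_co

theorem chk2 : (F14.all fun v => check 16 (v.take 2)) = true := by decide +kernel
theorem chk4 : (F14.all fun v => check 16 (v.take 4)) = true := by decide +kernel
theorem chk6 : (F14.all fun v => check 16 (v.take 6)) = true := by decide +kernel
theorem chk8 : (F14.all fun v => check 16 (v.take 8)) = true := by decide +kernel
theorem chk12 : (F14.all fun v => check 16 (v.take 12)) = true := by decide +kernel

end Pool.Agent.Lib.MP_89c171_co
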