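import Mathlib

/-! Definitions for `MP_89c171_co` (Kolakoski sequence, subrows, `S`-integrals, parity histories).
Everything is indexed from `0`: `s i` is the problem's `s_{i+1}`, and the run with index `j` is the
problem's `(j+1)`-th run. -/

namespace Pool.Agent.Lib.MP_89c171_co

/-- `runStart s j = s 0 + ⋯ + s (j-1)`: the position where the run with index `j` starts, if the run
with index `i` has length `s i` for every `i`. -/
def runStart (s : ℕ → ℕ) (j : ℕ) : ℕ := ∑ i ∈ Finset.range j, s i

/-- `s` is the Kolakoski sequence: its values are `1` and `2`, and for every `j` the block of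
positions `runStart s j, …, runStart s (j+1) - 1` (which has length `s j`) carries the letter `1` if
`j` is even and the letter `2` if `j` is odd.  So these blocks are the maximal runs of `s`, the
first run consists of `1`s, and the sequence of run lengths is `s` itself. -/
def IsKolakoski (s : ℕ → ℕ) : Prop :=
  (∀ i, s i = 1 ∨ s i = 2) ∧
    ∀ j i, runStart s j ≤ i → i < runStart s (j + 1) → s i = if Even j then 1 else 2

/-- A subrow is given by its starting position and its length; the `S`-integral of the subrow
`(k, L)` consists of the runs with indices `k, …, k + L - 1`: it starts at `runStart s k` and its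
length is `s k + ⋯ + s (k + L - 1)`. -/
def integral (s : ℕ → ℕ) (w : ℕ × ℕ) : ℕ × ℕ :=
  (runStart s w.1, ∑ i ∈ Finset.Ico w.1 (w.1 + w.2), s i)

/-- `parity s w n` is `P_n(w)`: the parity of the length of the `n`-th `S`-integral of `w`. -/
def parity (s : ℕ → ℕ) (w : ℕ × ℕ) (n : ℕ) : ℕ := ((integral s)^[n] w).2 % 2

end Pool.Agent.Lib.MP_89c171_co
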