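import Pool.Agent.Lib.MP_89c171_co.Base

/-! Existence and uniqueness of the Kolakoski sequence. -/

namespace Pool.Agent.Lib.MP_89c171_co

/-- the next letter after the prefix `l` -/
def next (l : List ℕ) : ℕ :=
  if Even ((Finset.range l.length).filter fun j => (l.take (j + 1)).sum ≤ l.length).card then 1 else 2

/-- the prefixes of the Kolakoski sequence -/
def pre : ℕ → List ℕ
  | 0 => []
  | n + 1 => pre n ++ [next (pre n)]

/-- the Kolakoski sequence -/
def kol (i : ℕ) : ℕ := next (pre i)

theorem length_pre (n : ℕ) : (pre n).length = n := by
  induction n with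
  | zero => rfl
  | succ n ih => simp [pre, ih]

theorem sum_take_pre (n : ℕ) : ∀ j ≤ n, ((pre n).take j).sum = runStart kol j := by
  induction n with
  | zero => intro j hj; obtain rfl : j = 0 := by omega
            simp [runStart]
  | succ n ih =>
    intro j hj
    rcases Nat.lt_or_ge j (n + 1) with h | h
    · rw [pre, List.take_append_of_le_length (by rw [length_pre]; omega)]
      exact ih j (by omega)
    · obtain rfl : j = n + 1 := by omega
      rw [List.take_of_length_le (by rw [length_pre]), pre, List.sum_append, runStart_succ]
      have := ih n le_rfl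
      rw [List.take_of_length_le (by rw [length_pre])] at this
      rw [this]
      simp [kol]

theorem kol_val (i : ℕ) : kol i = 1 ∨ kol i = 2 := by
  unfold kol next
  split_ifs <;> simp

theorem le_runStart_of {s : ℕ → ℕ} (h : ∀ i, s i = 1 ∨ s i = 2) (j : ℕ) : j ≤ runStart s j := by
  induction j with
  | zero => simp
  | succ j ih => rw [runStart_succ]; rcases h j with h' | h' <;> omega

theorem isKolakoski_kol : IsKolakoski kol := by
  refine ⟨kol_val, fun j i h1 h2 => ?_⟩
  have hcard : ((Finset.range (pre i).length).filter
      fun j => ((pre i).take (j + 1)).sum ≤ (pre i).length).card = j := by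
    have : (Finset.range (pre i).length).filter
        (fun j => ((pre i).take (j + 1)).sum ≤ (pre i).length) = Finset.range j := by
      ext a
      simp only [Finset.mem_filter, Finset.mem_range, length_pre]
      constructor
      · rintro ⟨ha, hb⟩
        rw [sum_take_pre i (a + 1) (by omega)] at hb
        by_contra hc
        have := runStart_mono kol (show j + 1 ≤ a + 1 by omega)
        omega
      · intro ha
        have h3 := runStart_mono kol (show a + 1 ≤ j by omega)
        have h4 := le_runStart_of kol_val (a + 1)
        refine ⟨by omega, ?_⟩
        rw [sum_take_pre i (a + 1) (by omega)]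
        omega
    rw [this, Finset.card_range]
  unfold kol next
  rw [hcard]

theorem IsKolakoski.unique {s s' : ℕ → ℕ} (h : IsKolakoski s) (h' : IsKolakoski s') : s = s' := by
  funext i
  induction i using Nat.strong_induction_on with
  | _ i ih =>
    obtain ⟨j, hj1, hj2⟩ := h.exists_run i
    have hle := h.le_runStart j
    -- the prefixes agree below `i`
    have hst : ∀ a ≤ i, runStart s a = runStart s' a := by
      intro a ha
      unfold runStart
      exact Finset.sum_congr rfl fun b hb => ih b (by have := Finset.mem_range.1 hb; omega)
    have h1' : runStart s' j ≤ i := by rw [← hst j (by omega)]; exact hj1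
    have e1 := h.2 j i hj1 hj2
    rcases Nat.lt_or_ge j i with hji | hji
    · have h2' : i < runStart s' (j + 1) := by rw [← hst (j + 1) (by omega)]; exact hj2
      rw [e1, h'.2 j i h1' h2']
    · have h2' : i < runStart s' (j + 1) := by
        have := h'.le_runStart (j + 1)
        omega
      rw [e1, h'.2 j i h1' h2']

theorem existsUnique_kolakoski : ∃! s : ℕ → ℕ, IsKolakoski s :=
  ⟨kol, isKolakoski_kol, fun _ h => h.unique isKolakoski_kol⟩

end Pool.Agent.Lib.MP_89c171_co
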