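import Pool.Agent.Lib.MP_89c171_co.Lists

namespace Pool.Agent.Lib.MP_89c171_co

/-- every window of length `L` inside the integral of a word of `A` belongs to `B` -/
def ext (A B : List (List Bool)) (L : ℕ) : Bool :=
  A.all fun v => [false, true].all fun e =>
    (decide (L + 1 ≤ (integ v e).length)) && (B.elem ((integ v e).take L)) &&
      (B.elem (((integ v e).drop 1).take L))

variable {s : ℕ → ℕ}

theorem win_mem_of_ext (h : IsKolakoski s) {A B : List (List Bool)} {M L : ℕ}
    (hA : ∀ k, win s k M ∈ A) (hext : ext A B L = true) (i : ℕ) : win s i L ∈ B := by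
  obtain ⟨j, hj1, hj2⟩ := h.exists_run i
  unfold ext at hext
  rw [List.all_eq_true] at hext
  have h1 := hext _ (hA j)
  rw [List.all_eq_true] at h1
  have h2 := h1 (decide (¬ Even j)) (by cases decide (¬ Even j) <;> simp)
  rw [h.integ_win, length_win] at h2
  simp only [Bool.and_eq_true, decide_eq_true_eq, List.elem_eq_contains, List.contains_iff_mem] at h2
  obtain ⟨⟨hlen, hm0⟩, hm1⟩ := h2
  have hs := runStart_succ s j
  have hsj : s j = 1 ∨ s j = 2 := h.1 j
  set N := runStart s (j + M) - runStart s j with hN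
  have : i = runStart s j ∨ i = runStart s j + 1 := by omega
  rcases this with rfl | rfl
  · rwa [take_win s L N _ (by omega)] at hm0
  · have hd : (win s (runStart s j) N).drop 1 = win s (runStart s j + 1) (N - 1) := by
      have := drop_win s 1 (N - 1) (runStart s j)
      rwa [show 1 + (N - 1) = N by omega] at this
    rw [hd, take_win s L (N - 1) _ (by omega)] at hm1
    exact hm1

theorem no_triple (h : IsKolakoski s) (i : ℕ) : ¬ (s i = s (i + 1) ∧ s (i + 1) = s (i + 2)) := by
  rintro ⟨h1, h2⟩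
  obtain ⟨j, hj1, hj2⟩ := h.exists_run i
  have hs := runStart_succ s j
  have hs' := runStart_succ s (j + 1)
  have hsj := h.1 j
  have hsj' := h.1 (j + 1)
  have e1 := h.2 j i hj1 hj2
  have e2 := h.2 (j + 1) (runStart s (j + 1)) (le_refl _) (by omega)
  have hi : runStart s (j + 1) = i + 1 ∨ runStart s (j + 1) = i + 2 := by omega
  have hev : Even (j + 1) ↔ ¬ Even j := Nat.even_add_one
  rcases hi with hi | hi
  · rw [hi] at e2
    rw [e1, e2] at h1
    by_cases hj : Even j <;> simp [hev, hj] at h1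
  · rw [hi] at e2
    rw [← h1, e1, e2] at h2
    by_cases hj : Even j <;> simp [hev, hj] at h2

theorem f6_complete : ∀ b0 b1 b2 b3 b4 b5 : Bool, ¬ (b0 = b1 ∧ b1 = b2) → ¬ (b1 = b2 ∧ b2 = b3) →
    ¬ (b2 = b3 ∧ b3 = b4) → ¬ (b3 = b4 ∧ b4 = b5) → [b0, b1, b2, b3, b4, b5] ∈ F6 := by
  decide +kernel

theorem bool_ne (h : IsKolakoski s) {a b c : ℕ} (hab : ¬ (s a = s b ∧ s b = s c)) :
    ¬ (decide (s a = 2) = decide (s b = 2) ∧ decide (s b = 2) = decide (s c = 2)) := by
  rintro ⟨h1, h2⟩
  apply hab
  rcases h.1 a with ha | ha <;> rcases h.1 b with hb | hb <;> rcases h.1 c with hc | hc <;>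
    simp_all

theorem win6 (h : IsKolakoski s) (i : ℕ) : win s i 6 ∈ F6 := by
  simp only [win]
  exact f6_complete _ _ _ _ _ _ (bool_ne h (no_triple h i)) (bool_ne h (no_triple h (i + 1)))
    (bool_ne h (no_triple h (i + 2))) (bool_ne h (no_triple h (i + 3)))

theorem ext67 : ext F6 F7 7 = true := by decide +kernel
theorem ext78 : ext F7 F8 8 = true := by decide +kernel
theorem ext810 : ext F8 F10 10 = true := by decide +kernel
theorem ext1013 : ext F10 F13 13 = true := by decide +kernel
theorem ext1314 : ext F13 F14 14 = true := by decide +kernel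
theorem ext1418 : ext F14 F18 18 = true := by decide +kernel

theorem win7 (h : IsKolakoski s) : ∀ i, win s i 7 ∈ F7 := win_mem_of_ext h (win6 h) ext67
theorem win8 (h : IsKolakoski s) : ∀ i, win s i 8 ∈ F8 := win_mem_of_ext h (win7 h) ext78
theorem win10 (h : IsKolakoski s) : ∀ i, win s i 10 ∈ F10 := win_mem_of_ext h (win8 h) ext810
theorem win13 (h : IsKolakoski s) : ∀ i, win s i 13 ∈ F13 := win_mem_of_ext h (win10 h) ext1013
theorem win14 (h : IsKolakoski s) : ∀ i, win s i 14 ∈ F14 := win_mem_of_ext h (win13 h) ext1314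
theorem win18 (h : IsKolakoski s) : ∀ i, win s i 18 ∈ F18 := win_mem_of_ext h (win14 h) ext1418

end Pool.Agent.Lib.MP_89c171_co
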