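import Pool.Agent.Lib.MP_89c171_co.Base

/-! Lists of the factors of the Kolakoski sequence of lengths 6, 7, 8, 10, 13, 14, 18
(`false` is the letter `1`, `true` is the letter `2`). -/

namespace Pool.Agent.Lib.MP_89c171_co

def F6 : List (List Bool) := [
  [false,false,true,false,false,true],
  [false,false,true,false,true,false],
  [false,false,true,false,true,true],
  [false,false,true,true,false,false],
  [false,false,true,true,false,true],
  [false,true,false,false,true,false],
  [false,true,false,false,true,true],
  [false,true,false,true,false,false],
  [false,true,false,true,false,true],
  [false,true,false,true,true,false],
  [false,true,true,false,false,true],
  [false,true,true,false,true,false],
  [false,true,true,false,true,true],
  [true,false,false,true,false,false],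
  [true,false,false,true,false,true],
  [true,false,false,true,true,false],
  [true,false,true,false,false,true],
  [true,false,true,false,true,false],
  [true,false,true,false,true,true],
  [true,false,true,true,false,false],
  [true,false,true,true,false,true],
  [true,true,false,false,true,false],
  [true,true,false,false,true,true],
  [true,true,false,true,false,false],
  [true,true,false,true,false,true],
  [true,true,false,true,true,false]]

def F7 : List (List Bool) := [
  [false,false,true,false,false,true,false],
  [false,false,true,false,false,true,true],
  [false,false,true,false,true,true,false],
  [false,false,true,true,false,true,false],
  [false,false,true,true,false,true,true],
  [false,true,false,false,true,false,false],
  [false,true,false,false,true,false,true],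
  [false,true,false,false,true,true,false],
  [false,true,false,true,true,false,false],
  [false,true,false,true,true,false,true],
  [false,true,true,false,false,true,false],
  [false,true,true,false,true,false,false],
  [false,true,true,false,true,true,false],
  [true,false,false,true,false,false,true],
  [true,false,false,true,false,true,true],
  [true,false,false,true,true,false,true],
  [true,false,true,false,false,true,false],
  [true,false,true,false,false,true,true],
  [true,false,true,true,false,false,true],
  [true,false,true,true,false,true,false],
  [true,false,true,true,false,true,true],
  [true,true,false,false,true,false,false],
  [true,true,false,false,true,false,true],
  [true,true,false,true,false,false,true],
  [true,true,false,true,true,false,false],
  [true,true,false,true,true,false,true]]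

def F8 : List (List Bool) := [
  [false,false,true,false,false,true,false,true],
  [false,false,true,false,false,true,true,false],
  [false,false,true,false,true,true,false,false],
  [false,false,true,false,true,true,false,true],
  [false,false,true,true,false,true,false,false],
  [false,false,true,true,false,true,true,false],
  [false,true,false,false,true,false,false,true],
  [false,true,false,false,true,false,true,true],
  [false,true,false,false,true,true,false,true],
  [false,true,false,true,true,false,false,true],
  [false,true,false,true,true,false,true,false],
  [false,true,false,true,true,false,true,true],
  [false,true,true,false,false,true,false,false],
  [false,true,true,false,false,true,false,true],
  [false,true,true,false,true,false,false,true],
  [false,true,true,false,true,true,false,false],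
  [false,true,true,false,true,true,false,true],
  [true,false,false,true,false,false,true,false],
  [true,false,false,true,false,false,true,true],
  [true,false,false,true,false,true,true,false],
  [true,false,false,true,true,false,true,false],
  [true,false,false,true,true,false,true,true],
  [true,false,true,false,false,true,false,false],
  [true,false,true,false,false,true,false,true],
  [true,false,true,false,false,true,true,false],
  [true,false,true,true,false,false,true,false],
  [true,false,true,true,false,true,false,false],
  [true,false,true,true,false,true,true,false],
  [true,true,false,false,true,false,false,true],
  [true,true,false,false,true,false,true,true],
  [true,true,false,true,false,false,true,false],
  [true,true,false,true,false,false,true,true],
  [true,true,false,true,true,false,false,true],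
  [true,true,false,true,true,false,true,false]]

def F10 : List (List Bool) := [
  [false,false,true,false,false,true,false,true,true,false],
  [false,false,true,false,false,true,true,false,true,false],
  [false,false,true,false,false,true,true,false,true,true],
  [false,false,true,false,true,true,false,false,true,false],
  [false,false,true,false,true,true,false,true,false,false],
  [false,false,true,false,true,true,false,true,true,false],
  [false,false,true,true,false,true,false,false,true,false],
  [false,false,true,true,false,true,true,false,false,true],
  [false,false,true,true,false,true,true,false,true,false],
  [false,true,false,false,true,false,false,true,true,false],
  [false,true,false,false,true,false,true,true,false,false],
  [false,true,false,false,true,false,true,true,false,true],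
  [false,true,false,false,true,true,false,true,false,false],
  [false,true,false,false,true,true,false,true,true,false],
  [false,true,false,true,true,false,false,true,false,false],
  [false,true,false,true,true,false,true,false,false,true],
  [false,true,false,true,true,false,true,true,false,false],
  [false,true,true,false,false,true,false,false,true,false],
  [false,true,true,false,false,true,false,false,true,true],
  [false,true,true,false,false,true,false,true,true,false],
  [false,true,true,false,true,false,false,true,false,false],
  [false,true,true,false,true,false,false,true,false,true],
  [false,true,true,false,true,false,false,true,true,false],
  [false,true,true,false,true,true,false,false,true,false],
  [false,true,true,false,true,true,false,true,false,false],
  [true,false,false,true,false,false,true,false,true,true],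
  [true,false,false,true,false,false,true,true,false,true],
  [true,false,false,true,false,true,true,false,false,true],
  [true,false,false,true,false,true,true,false,true,false],
  [true,false,false,true,false,true,true,false,true,true],
  [true,false,false,true,true,false,true,false,false,true],
  [true,false,false,true,true,false,true,true,false,false],
  [true,false,false,true,true,false,true,true,false,true],
  [true,false,true,false,false,true,false,false,true,true],
  [true,false,true,false,false,true,false,true,true,false],
  [true,false,true,false,false,true,true,false,true,true],
  [true,false,true,true,false,false,true,false,false,true],
  [true,false,true,true,false,false,true,false,true,true],
  [true,false,true,true,false,true,false,false,true,false],
  [true,false,true,true,false,true,false,false,true,true],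
  [true,false,true,true,false,true,true,false,false,true],
  [true,true,false,false,true,false,false,true,false,true],
  [true,true,false,false,true,false,false,true,true,false],
  [true,true,false,false,true,false,true,true,false,true],
  [true,true,false,true,false,false,true,false,false,true],
  [true,true,false,true,false,false,true,false,true,true],
  [true,true,false,true,false,false,true,true,false,true],
  [true,true,false,true,true,false,false,true,false,false],
  [true,true,false,true,true,false,false,true,false,true],
  [true,true,false,true,true,false,true,false,false,true]]

def F13 : List (List Bool) := [
  [false,false,true,false,false,true,false,true,true,false,false,true,false],
  [false,false,true,false,false,true,false,true,true,false,true,false,false],
  [false,false,true,false,false,true,false,true,true,false,true,true,false],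
  [false,false,true,false,false,true,true,false,true,false,false,true,false],
  [false,false,true,false,false,true,true,false,true,true,false,false,true],
  [false,false,true,false,false,true,true,false,true,true,false,true,false],
  [false,false,true,false,true,true,false,false,true,false,false,true,false],
  [false,false,true,false,true,true,false,false,true,false,false,true,true],
  [false,false,true,false,true,true,false,true,false,false,true,false,false],
  [false,false,true,false,true,true,false,true,false,false,true,true,false],
  [false,false,true,false,true,true,false,true,true,false,false,true,false],
  [false,false,true,true,false,true,false,false,true,false,false,true,true],
  [false,false,true,true,false,true,false,false,true,false,true,true,false],
  [false,false,true,true,false,true,true,false,false,true,false,false,true],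
  [false,false,true,true,false,true,true,false,false,true,false,true,true],
  [false,false,true,true,false,true,true,false,true,false,false,true,false],
  [false,false,true,true,false,true,true,false,true,false,false,true,true],
  [false,true,false,false,true,false,false,true,true,false,true,false,false],
  [false,true,false,false,true,false,false,true,true,false,true,true,false],
  [false,true,false,false,true,false,true,true,false,false,true,false,false],
  [false,true,false,false,true,false,true,true,false,true,false,false,true],
  [false,true,false,false,true,false,true,true,false,true,true,false,false],
  [false,true,false,false,true,true,false,true,false,false,true,false,false],
  [false,true,false,false,true,true,false,true,false,false,true,false,true],
  [false,true,false,false,true,true,false,true,true,false,false,true,false],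
  [false,true,false,false,true,true,false,true,true,false,true,false,false],
  [false,true,false,true,true,false,false,true,false,false,true,false,true],
  [false,true,false,true,true,false,false,true,false,false,true,true,false],
  [false,true,false,true,true,false,true,false,false,true,false,false,true],
  [false,true,false,true,true,false,true,false,false,true,true,false,true],
  [false,true,false,true,true,false,true,true,false,false,true,false,false],
  [false,true,false,true,true,false,true,true,false,false,true,false,true],
  [false,true,true,false,false,true,false,false,true,false,true,true,false],
  [false,true,true,false,false,true,false,false,true,true,false,true,false],
  [false,true,true,false,false,true,false,false,true,true,false,true,true],
  [false,true,true,false,false,true,false,true,true,false,true,false,false],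
  [false,true,true,false,false,true,false,true,true,false,true,true,false],
  [false,true,true,false,true,false,false,true,false,false,true,true,false],
  [false,true,true,false,true,false,false,true,false,true,true,false,false],
  [false,true,true,false,true,false,false,true,false,true,true,false,true],
  [false,true,true,false,true,false,false,true,true,false,true,true,false],
  [false,true,true,false,true,true,false,false,true,false,false,true,false],
  [false,true,true,false,true,true,false,false,true,false,false,true,true],
  [false,true,true,false,true,true,false,false,true,false,true,true,false],
  [false,true,true,false,true,true,false,true,false,false,true,false,false],
  [false,true,true,false,true,true,false,true,false,false,true,false,true],
  [false,true,true,false,true,true,false,true,false,false,true,true,false],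
  [true,false,false,true,false,false,true,false,true,true,false,false,true],
  [true,false,false,true,false,false,true,false,true,true,false,true,false],
  [true,false,false,true,false,false,true,false,true,true,false,true,true],
  [true,false,false,true,false,false,true,true,false,true,false,false,true],
  [true,false,false,true,false,false,true,true,false,true,true,false,false],
  [true,false,false,true,false,false,true,true,false,true,true,false,true],
  [true,false,false,true,false,true,true,false,false,true,false,false,true],
  [true,false,false,true,false,true,true,false,true,false,false,true,false],
  [true,false,false,true,false,true,true,false,true,false,false,true,true],
  [true,false,false,true,false,true,true,false,true,true,false,false,true],
  [true,false,false,true,true,false,true,false,false,true,false,false,true],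
  [true,false,false,true,true,false,true,false,false,true,false,true,true],
  [true,false,false,true,true,false,true,true,false,false,true,false,false],
  [true,false,false,true,true,false,true,true,false,false,true,false,true],
  [true,false,false,true,true,false,true,true,false,true,false,false,true],
  [true,false,true,false,false,true,false,false,true,true,false,true,false],
  [true,false,true,false,false,true,false,false,true,true,false,true,true],
  [true,false,true,false,false,true,false,true,true,false,false,true,false],
  [true,false,true,false,false,true,false,true,true,false,true,true,false],
  [true,false,true,false,false,true,true,false,true,true,false,false,true],
  [true,false,true,false,false,true,true,false,true,true,false,true,false],
  [true,false,true,true,false,false,true,false,false,true,false,true,true],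
  [true,false,true,true,false,false,true,false,false,true,true,false,true],
  [true,false,true,true,false,false,true,false,true,true,false,true,false],
  [true,false,true,true,false,false,true,false,true,true,false,true,true],
  [true,false,true,true,false,true,false,false,true,false,false,true,true],
  [true,false,true,true,false,true,false,false,true,false,true,true,false],
  [true,false,true,true,false,true,false,false,true,true,false,true,true],
  [true,false,true,true,false,true,true,false,false,true,false,false,true],
  [true,false,true,true,false,true,true,false,false,true,false,true,true],
  [true,true,false,false,true,false,false,true,false,true,true,false,false],
  [true,true,false,false,true,false,false,true,false,true,true,false,true],
  [true,true,false,false,true,false,false,true,true,false,true,false,false],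
  [true,true,false,false,true,false,false,true,true,false,true,true,false],
  [true,true,false,false,true,false,true,true,false,true,false,false,true],
  [true,true,false,false,true,false,true,true,false,true,true,false,false],
  [true,true,false,true,false,false,true,false,false,true,true,false,true],
  [true,true,false,true,false,false,true,false,true,true,false,false,true],
  [true,true,false,true,false,false,true,false,true,true,false,true,true],
  [true,true,false,true,false,false,true,true,false,true,true,false,false],
  [true,true,false,true,false,false,true,true,false,true,true,false,true],
  [true,true,false,true,true,false,false,true,false,false,true,false,true],
  [true,true,false,true,true,false,false,true,false,false,true,true,false],
  [true,true,false,true,true,false,false,true,false,true,true,false,true],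
  [true,true,false,true,true,false,true,false,false,true,false,false,true],
  [true,true,false,true,true,false,true,false,false,true,false,true,true],
  [true,true,false,true,true,false,true,false,false,true,true,false,true]]

def F14 : List (List Bool) := [
  [false,false,true,false,false,true,false,true,true,false,false,true,false,false],
  [false,false,true,false,false,true,false,true,true,false,true,false,false,true],
  [false,false,true,false,false,true,false,true,true,false,true,true,false,false],
  [false,false,true,false,false,true,true,false,true,false,false,true,false,false],
  [false,false,true,false,false,true,true,false,true,false,false,true,false,true],
  [false,false,true,false,false,true,true,false,true,true,false,false,true,false],
  [false,false,true,false,false,true,true,false,true,true,false,true,false,false],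
  [false,false,true,false,true,true,false,false,true,false,false,true,false,true],
  [false,false,true,false,true,true,false,false,true,false,false,true,true,false],
  [false,false,true,false,true,true,false,true,false,false,true,false,false,true],
  [false,false,true,false,true,true,false,true,false,false,true,true,false,true],
  [false,false,true,false,true,true,false,true,true,false,false,true,false,false],
  [false,false,true,false,true,true,false,true,true,false,false,true,false,true],
  [false,false,true,true,false,true,false,false,true,false,false,true,true,false],
  [false,false,true,true,false,true,false,false,true,false,true,true,false,false],
  [false,false,true,true,false,true,false,false,true,false,true,true,false,true],
  [false,false,true,true,false,true,true,false,false,true,false,false,true,false],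
  [false,false,true,true,false,true,true,false,false,true,false,true,true,false],
  [false,false,true,true,false,true,true,false,true,false,false,true,false,false],
  [false,false,true,true,false,true,true,false,true,false,false,true,false,true],
  [false,false,true,true,false,true,true,false,true,false,false,true,true,false],
  [false,true,false,false,true,false,false,true,true,false,true,false,false,true],
  [false,true,false,false,true,false,false,true,true,false,true,true,false,false],
  [false,true,false,false,true,false,false,true,true,false,true,true,false,true],
  [false,true,false,false,true,false,true,true,false,false,true,false,false,true],
  [false,true,false,false,true,false,true,true,false,true,false,false,true,true],
  [false,true,false,false,true,false,true,true,false,true,true,false,false,true],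
  [false,true,false,false,true,true,false,true,false,false,true,false,false,true],
  [false,true,false,false,true,true,false,true,false,false,true,false,true,true],
  [false,true,false,false,true,true,false,true,true,false,false,true,false,false],
  [false,true,false,false,true,true,false,true,true,false,false,true,false,true],
  [false,true,false,false,true,true,false,true,true,false,true,false,false,true],
  [false,true,false,true,true,false,false,true,false,false,true,false,true,true],
  [false,true,false,true,true,false,false,true,false,false,true,true,false,true],
  [false,true,false,true,true,false,true,false,false,true,false,false,true,true],
  [false,true,false,true,true,false,true,false,false,true,true,false,true,true],
  [false,true,false,true,true,false,true,true,false,false,true,false,false,true],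
  [false,true,false,true,true,false,true,true,false,false,true,false,true,true],
  [false,true,true,false,false,true,false,false,true,false,true,true,false,false],
  [false,true,true,false,false,true,false,false,true,false,true,true,false,true],
  [false,true,true,false,false,true,false,false,true,true,false,true,false,false],
  [false,true,true,false,false,true,false,false,true,true,false,true,true,false],
  [false,true,true,false,false,true,false,true,true,false,true,false,false,true],
  [false,true,true,false,false,true,false,true,true,false,true,true,false,false],
  [false,true,true,false,true,false,false,true,false,false,true,true,false,true],
  [false,true,true,false,true,false,false,true,false,true,true,false,false,true],
  [false,true,true,false,true,false,false,true,false,true,true,false,true,true],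
  [false,true,true,false,true,false,false,true,true,false,true,true,false,false],
  [false,true,true,false,true,false,false,true,true,false,true,true,false,true],
  [false,true,true,false,true,true,false,false,true,false,false,true,false,true],
  [false,true,true,false,true,true,false,false,true,false,false,true,true,false],
  [false,true,true,false,true,true,false,false,true,false,true,true,false,true],
  [false,true,true,false,true,true,false,true,false,false,true,false,false,true],
  [false,true,true,false,true,true,false,true,false,false,true,false,true,true],
  [false,true,true,false,true,true,false,true,false,false,true,true,false,true],
  [true,false,false,true,false,false,true,false,true,true,false,false,true,false],
  [true,false,false,true,false,false,true,false,true,true,false,true,false,false],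
  [true,false,false,true,false,false,true,false,true,true,false,true,true,false],
  [true,false,false,true,false,false,true,true,false,true,false,false,true,false],
  [true,false,false,true,false,false,true,true,false,true,true,false,false,true],
  [true,false,false,true,false,false,true,true,false,true,true,false,true,false],
  [true,false,false,true,false,true,true,false,false,true,false,false,true,false],
  [true,false,false,true,false,true,true,false,false,true,false,false,true,true],
  [true,false,false,true,false,true,true,false,true,false,false,true,false,false],
  [true,false,false,true,false,true,true,false,true,false,false,true,true,false],
  [true,false,false,true,false,true,true,false,true,true,false,false,true,false],
  [true,false,false,true,true,false,true,false,false,true,false,false,true,true],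
  [true,false,false,true,true,false,true,false,false,true,false,true,true,false],
  [true,false,false,true,true,false,true,true,false,false,true,false,false,true],
  [true,false,false,true,true,false,true,true,false,false,true,false,true,true],
  [true,false,false,true,true,false,true,true,false,true,false,false,true,false],
  [true,false,false,true,true,false,true,true,false,true,false,false,true,true],
  [true,false,true,false,false,true,false,false,true,true,false,true,false,false],
  [true,false,true,false,false,true,false,false,true,true,false,true,true,false],
  [true,false,true,false,false,true,false,true,true,false,false,true,false,false],
  [true,false,true,false,false,true,false,true,true,false,true,true,false,false],
  [true,false,true,false,false,true,true,false,true,true,false,false,true,false],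
  [true,false,true,false,false,true,true,false,true,true,false,true,false,false],
  [true,false,true,true,false,false,true,false,false,true,false,true,true,false],
  [true,false,true,true,false,false,true,false,false,true,true,false,true,false],
  [true,false,true,true,false,false,true,false,false,true,true,false,true,true],
  [true,false,true,true,false,false,true,false,true,true,false,true,false,false],
  [true,false,true,true,false,false,true,false,true,true,false,true,true,false],
  [true,false,true,true,false,true,false,false,true,false,false,true,true,false],
  [true,false,true,true,false,true,false,false,true,false,true,true,false,false],
  [true,false,true,true,false,true,false,false,true,true,false,true,true,false],
  [true,false,true,true,false,true,true,false,false,true,false,false,true,false],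
  [true,false,true,true,false,true,true,false,false,true,false,false,true,true],
  [true,false,true,true,false,true,true,false,false,true,false,true,true,false],
  [true,true,false,false,true,false,false,true,false,true,true,false,false,true],
  [true,true,false,false,true,false,false,true,false,true,true,false,true,false],
  [true,true,false,false,true,false,false,true,false,true,true,false,true,true],
  [true,true,false,false,true,false,false,true,true,false,true,false,false,true],
  [true,true,false,false,true,false,false,true,true,false,true,true,false,true],
  [true,true,false,false,true,false,true,true,false,true,false,false,true,false],
  [true,true,false,false,true,false,true,true,false,true,false,false,true,true],
  [true,true,false,false,true,false,true,true,false,true,true,false,false,true],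
  [true,true,false,true,false,false,true,false,false,true,true,false,true,false],
  [true,true,false,true,false,false,true,false,false,true,true,false,true,true],
  [true,true,false,true,false,false,true,false,true,true,false,false,true,false],
  [true,true,false,true,false,false,true,false,true,true,false,true,true,false],
  [true,true,false,true,false,false,true,true,false,true,true,false,false,true],
  [true,true,false,true,false,false,true,true,false,true,true,false,true,false],
  [true,true,false,true,true,false,false,true,false,false,true,false,true,true],
  [true,true,false,true,true,false,false,true,false,false,true,true,false,true],
  [true,true,false,true,true,false,false,true,false,true,true,false,true,false],
  [true,true,false,true,true,false,false,true,false,true,true,false,true,true],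
  [true,true,false,true,true,false,true,false,false,true,false,false,true,true],
  [true,true,false,true,true,false,true,false,false,true,false,true,true,false],
  [true,true,false,true,true,false,true,false,false,true,true,false,true,true]]

def F18 : List (List Bool) := [
  [false,false,true,false,false,true,false,true,true,false,false,true,false,false,true,true,false,true],
  [false,false,true,false,false,true,false,true,true,false,true,false,false,true,true,false,true,true],
  [false,false,true,false,false,true,false,true,true,false,true,true,false,false,true,false,false,true],
  [false,false,true,false,false,true,false,true,true,false,true,true,false,false,true,false,true,true],
  [false,false,true,false,false,true,true,false,true,false,false,true,false,false,true,true,false,true],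
  [false,false,true,false,false,true,true,false,true,false,false,true,false,true,true,false,false,true],
  [false,false,true,false,false,true,true,false,true,false,false,true,false,true,true,false,true,true],
  [false,false,true,false,false,true,true,false,true,true,false,false,true,false,true,true,false,true],
  [false,false,true,false,false,true,true,false,true,true,false,true,false,false,true,false,false,true],
  [false,false,true,false,false,true,true,false,true,true,false,true,false,false,true,false,true,true],
  [false,false,true,false,false,true,true,false,true,true,false,true,false,false,true,true,false,true],
  [false,false,true,false,true,true,false,false,true,false,false,true,false,true,true,false,true,false],
  [false,false,true,false,true,true,false,false,true,false,false,true,false,true,true,false,true,true],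
  [false,false,true,false,true,true,false,false,true,false,false,true,true,false,true,false,false,true],
  [false,false,true,false,true,true,false,false,true,false,false,true,true,false,true,true,false,true],
  [false,false,true,false,true,true,false,true,false,false,true,false,false,true,true,false,true,false],
  [false,false,true,false,true,true,false,true,false,false,true,false,false,true,true,false,true,true],
  [false,false,true,false,true,true,false,true,false,false,true,true,false,true,true,false,false,true],
  [false,false,true,false,true,true,false,true,false,false,true,true,false,true,true,false,true,false],
  [false,false,true,false,true,true,false,true,true,false,false,true,false,false,true,false,true,true],
  [false,false,true,false,true,true,false,true,true,false,false,true,false,false,true,true,false,true],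
  [false,false,true,false,true,true,false,true,true,false,false,true,false,true,true,false,true,false],
  [false,false,true,true,false,true,false,false,true,false,false,true,true,false,true,true,false,false],
  [false,false,true,true,false,true,false,false,true,false,false,true,true,false,true,true,false,true],
  [false,false,true,true,false,true,false,false,true,false,true,true,false,false,true,false,false,true],
  [false,false,true,true,false,true,false,false,true,false,true,true,false,true,true,false,false,true],
  [false,false,true,true,false,true,true,false,false,true,false,false,true,false,true,true,false,false],
  [false,false,true,true,false,true,true,false,false,true,false,false,true,false,true,true,false,true],
  [false,false,true,true,false,true,true,false,false,true,false,true,true,false,true,false,false,true],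
  [false,false,true,true,false,true,true,false,false,true,false,true,true,false,true,true,false,false],
  [false,false,true,true,false,true,true,false,true,false,false,true,false,false,true,true,false,true],
  [false,false,true,true,false,true,true,false,true,false,false,true,false,true,true,false,false,true],
  [false,false,true,true,false,true,true,false,true,false,false,true,true,false,true,true,false,false],
  [false,true,false,false,true,false,false,true,true,false,true,false,false,true,false,true,true,false],
  [false,true,false,false,true,false,false,true,true,false,true,true,false,false,true,false,true,true],
  [false,true,false,false,true,false,false,true,true,false,true,true,false,true,false,false,true,false],
  [false,true,false,false,true,false,false,true,true,false,true,true,false,true,false,false,true,true],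
  [false,true,false,false,true,false,true,true,false,false,true,false,false,true,false,true,true,false],
  [false,true,false,false,true,false,true,true,false,false,true,false,false,true,true,false,true,false],
  [false,true,false,false,true,false,true,true,false,false,true,false,false,true,true,false,true,true],
  [false,true,false,false,true,false,true,true,false,true,false,false,true,true,false,true,true,false],
  [false,true,false,false,true,false,true,true,false,true,true,false,false,true,false,false,true,false],
  [false,true,false,false,true,false,true,true,false,true,true,false,false,true,false,false,true,true],
  [false,true,false,false,true,false,true,true,false,true,true,false,false,true,false,true,true,false],
  [false,true,false,false,true,true,false,true,false,false,true,false,false,true,true,false,true,true],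
  [false,true,false,false,true,true,false,true,false,false,true,false,true,true,false,false,true,false],
  [false,true,false,false,true,true,false,true,false,false,true,false,true,true,false,true,true,false],
  [false,true,false,false,true,true,false,true,true,false,false,true,false,false,true,false,true,true],
  [false,true,false,false,true,true,false,true,true,false,false,true,false,true,true,false,true,false],
  [false,true,false,false,true,true,false,true,true,false,false,true,false,true,true,false,true,true],
  [false,true,false,false,true,true,false,true,true,false,true,false,false,true,false,false,true,true],
  [false,true,false,false,true,true,false,true,true,false,true,false,false,true,false,true,true,false],
  [false,true,false,false,true,true,false,true,true,false,true,false,false,true,true,false,true,true],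
  [false,true,false,true,true,false,false,true,false,false,true,false,true,true,false,true,false,false],
  [false,true,false,true,true,false,false,true,false,false,true,false,true,true,false,true,true,false],
  [false,true,false,true,true,false,false,true,false,false,true,true,false,true,false,false,true,false],
  [false,true,false,true,true,false,false,true,false,false,true,true,false,true,true,false,true,false],
  [false,true,false,true,true,false,true,false,false,true,false,false,true,true,false,true,false,false],
  [false,true,false,true,true,false,true,false,false,true,false,false,true,true,false,true,true,false],
  [false,true,false,true,true,false,true,false,false,true,true,false,true,true,false,false,true,false],
  [false,true,false,true,true,false,true,false,false,true,true,false,true,true,false,true,false,false],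
  [false,true,false,true,true,false,true,true,false,false,true,false,false,true,false,true,true,false],
  [false,true,false,true,true,false,true,true,false,false,true,false,false,true,true,false,true,false],
  [false,true,false,true,true,false,true,true,false,false,true,false,true,true,false,true,false,false],
  [false,true,true,false,false,true,false,false,true,false,true,true,false,false,true,false,false,true],
  [false,true,true,false,false,true,false,false,true,false,true,true,false,true,false,false,true,true],
  [false,true,true,false,false,true,false,false,true,false,true,true,false,true,true,false,false,true],
  [false,true,true,false,false,true,false,false,true,true,false,true,false,false,true,false,false,true],
  [false,true,true,false,false,true,false,false,true,true,false,true,false,false,true,false,true,true],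
  [false,true,true,false,false,true,false,false,true,true,false,true,true,false,true,false,false,true],
  [false,true,true,false,false,true,false,true,true,false,true,false,false,true,false,false,true,true],
  [false,true,true,false,false,true,false,true,true,false,true,false,false,true,true,false,true,true],
  [false,true,true,false,false,true,false,true,true,false,true,true,false,false,true,false,false,true],
  [false,true,true,false,true,false,false,true,false,false,true,true,false,true,false,false,true,false],
  [false,true,true,false,true,false,false,true,false,false,true,true,false,true,true,false,false,true],
  [false,true,true,false,true,false,false,true,false,false,true,true,false,true,true,false,true,false],
  [false,true,true,false,true,false,false,true,false,true,true,false,false,true,false,false,true,false],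
  [false,true,true,false,true,false,false,true,false,true,true,false,false,true,false,false,true,true],
  [false,true,true,false,true,false,false,true,false,true,true,false,true,true,false,false,true,false],
  [false,true,true,false,true,false,false,true,true,false,true,true,false,false,true,false,false,true],
  [false,true,true,false,true,false,false,true,true,false,true,true,false,false,true,false,true,true],
  [false,true,true,false,true,false,false,true,true,false,true,true,false,true,false,false,true,false],
  [false,true,true,false,true,true,false,false,true,false,false,true,false,true,true,false,false,true],
  [false,true,true,false,true,true,false,false,true,false,false,true,false,true,true,false,true,false],
  [false,true,true,false,true,true,false,false,true,false,false,true,false,true,true,false,true,true],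
  [false,true,true,false,true,true,false,false,true,false,false,true,true,false,true,false,false,true],
  [false,true,true,false,true,true,false,false,true,false,true,true,false,true,false,false,true,false],
  [false,true,true,false,true,true,false,false,true,false,true,true,false,true,false,false,true,true],
  [false,true,true,false,true,true,false,false,true,false,true,true,false,true,true,false,false,true],
  [false,true,true,false,true,true,false,true,false,false,true,false,false,true,true,false,true,false],
  [false,true,true,false,true,true,false,true,false,false,true,false,false,true,true,false,true,true],
  [false,true,true,false,true,true,false,true,false,false,true,false,true,true,false,false,true,false],
  [false,true,true,false,true,true,false,true,false,false,true,true,false,true,true,false,false,true],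
  [true,false,false,true,false,false,true,false,true,true,false,false,true,false,false,true,true,false],
  [true,false,false,true,false,false,true,false,true,true,false,true,false,false,true,true,false,true],
  [true,false,false,true,false,false,true,false,true,true,false,true,true,false,false,true,false,false],
  [true,false,false,true,false,false,true,false,true,true,false,true,true,false,false,true,false,true],
  [true,false,false,true,false,false,true,true,false,true,false,false,true,false,false,true,true,false],
  [true,false,false,true,false,false,true,true,false,true,false,false,true,false,true,true,false,false],
  [true,false,false,true,false,false,true,true,false,true,false,false,true,false,true,true,false,true],
  [true,false,false,true,false,false,true,true,false,true,true,false,false,true,false,true,true,false],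
  [true,false,false,true,false,false,true,true,false,true,true,false,true,false,false,true,false,false],
  [true,false,false,true,false,false,true,true,false,true,true,false,true,false,false,true,false,true],
  [true,false,false,true,false,false,true,true,false,true,true,false,true,false,false,true,true,false],
  [true,false,false,true,false,true,true,false,false,true,false,false,true,false,true,true,false,true],
  [true,false,false,true,false,true,true,false,false,true,false,false,true,true,false,true,false,false],
  [true,false,false,true,false,true,true,false,false,true,false,false,true,true,false,true,true,false],
  [true,false,false,true,false,true,true,false,true,false,false,true,false,false,true,true,false,true],
  [true,false,false,true,false,true,true,false,true,false,false,true,true,false,true,true,false,false],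
  [true,false,false,true,false,true,true,false,true,false,false,true,true,false,true,true,false,true],
  [true,false,false,true,false,true,true,false,true,true,false,false,true,false,false,true,false,true],
  [true,false,false,true,false,true,true,false,true,true,false,false,true,false,false,true,true,false],
  [true,false,false,true,false,true,true,false,true,true,false,false,true,false,true,true,false,true],
  [true,false,false,true,true,false,true,false,false,true,false,false,true,true,false,true,true,false],
  [true,false,false,true,true,false,true,false,false,true,false,true,true,false,false,true,false,false],
  [true,false,false,true,true,false,true,false,false,true,false,true,true,false,true,true,false,false],
  [true,false,false,true,true,false,true,true,false,false,true,false,false,true,false,true,true,false],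
  [true,false,false,true,true,false,true,true,false,false,true,false,true,true,false,true,false,false],
  [true,false,false,true,true,false,true,true,false,false,true,false,true,true,false,true,true,false],
  [true,false,false,true,true,false,true,true,false,true,false,false,true,false,false,true,true,false],
  [true,false,false,true,true,false,true,true,false,true,false,false,true,false,true,true,false,false],
  [true,false,false,true,true,false,true,true,false,true,false,false,true,true,false,true,true,false],
  [true,false,true,false,false,true,false,false,true,true,false,true,false,false,true,false,true,true],
  [true,false,true,false,false,true,false,false,true,true,false,true,true,false,false,true,false,true],
  [true,false,true,false,false,true,false,false,true,true,false,true,true,false,true,false,false,true],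
  [true,false,true,false,false,true,false,true,true,false,false,true,false,false,true,false,true,true],
  [true,false,true,false,false,true,false,true,true,false,false,true,false,false,true,true,false,true],
  [true,false,true,false,false,true,false,true,true,false,true,true,false,false,true,false,false,true],
  [true,false,true,false,false,true,false,true,true,false,true,true,false,false,true,false,true,true],
  [true,false,true,false,false,true,true,false,true,true,false,false,true,false,false,true,false,true],
  [true,false,true,false,false,true,true,false,true,true,false,false,true,false,true,true,false,true],
  [true,false,true,false,false,true,true,false,true,true,false,true,false,false,true,false,false,true],
  [true,false,true,false,false,true,true,false,true,true,false,true,false,false,true,false,true,true],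
  [true,false,true,true,false,false,true,false,false,true,false,true,true,false,false,true,false,false],
  [true,false,true,true,false,false,true,false,false,true,false,true,true,false,true,false,false,true],
  [true,false,true,true,false,false,true,false,false,true,false,true,true,false,true,true,false,false],
  [true,false,true,true,false,false,true,false,false,true,true,false,true,false,false,true,false,false],
  [true,false,true,true,false,false,true,false,false,true,true,false,true,false,false,true,false,true],
  [true,false,true,true,false,false,true,false,false,true,true,false,true,true,false,true,false,false],
  [true,false,true,true,false,false,true,false,true,true,false,true,false,false,true,false,false,true],
  [true,false,true,true,false,false,true,false,true,true,false,true,false,false,true,true,false,true],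
  [true,false,true,true,false,false,true,false,true,true,false,true,true,false,false,true,false,false],
  [true,false,true,true,false,true,false,false,true,false,false,true,true,false,true,false,false,true],
  [true,false,true,true,false,true,false,false,true,false,false,true,true,false,true,true,false,false],
  [true,false,true,true,false,true,false,false,true,false,false,true,true,false,true,true,false,true],
  [true,false,true,true,false,true,false,false,true,false,true,true,false,false,true,false,false,true],
  [true,false,true,true,false,true,false,false,true,true,false,true,true,false,false,true,false,false],
  [true,false,true,true,false,true,false,false,true,true,false,true,true,false,false,true,false,true],
  [true,false,true,true,false,true,false,false,true,true,false,true,true,false,true,false,false,true],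
  [true,false,true,true,false,true,true,false,false,true,false,false,true,false,true,true,false,false],
  [true,false,true,true,false,true,true,false,false,true,false,false,true,false,true,true,false,true],
  [true,false,true,true,false,true,true,false,false,true,false,false,true,true,false,true,false,false],
  [true,false,true,true,false,true,true,false,false,true,false,true,true,false,true,false,false,true],
  [true,true,false,false,true,false,false,true,false,true,true,false,false,true,false,false,true,true],
  [true,true,false,false,true,false,false,true,false,true,true,false,true,false,false,true,true,false],
  [true,true,false,false,true,false,false,true,false,true,true,false,true,true,false,false,true,false],
  [true,true,false,false,true,false,false,true,true,false,true,false,false,true,false,false,true,true],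
  [true,true,false,false,true,false,false,true,true,false,true,false,false,true,false,true,true,false],
  [true,true,false,false,true,false,false,true,true,false,true,true,false,true,false,false,true,false],
  [true,true,false,false,true,false,false,true,true,false,true,true,false,true,false,false,true,true],
  [true,true,false,false,true,false,true,true,false,true,false,false,true,false,false,true,true,false],
  [true,true,false,false,true,false,true,true,false,true,false,false,true,true,false,true,true,false],
  [true,true,false,false,true,false,true,true,false,true,true,false,false,true,false,false,true,false],
  [true,true,false,false,true,false,true,true,false,true,true,false,false,true,false,false,true,true],
  [true,true,false,true,false,false,true,false,false,true,true,false,true,false,false,true,false,true],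
  [true,true,false,true,false,false,true,false,false,true,true,false,true,true,false,false,true,false],
  [true,true,false,true,false,false,true,false,false,true,true,false,true,true,false,true,false,false],
  [true,true,false,true,false,false,true,false,true,true,false,false,true,false,false,true,false,true],
  [true,true,false,true,false,false,true,false,true,true,false,false,true,false,false,true,true,false],
  [true,true,false,true,false,false,true,false,true,true,false,true,true,false,false,true,false,false],
  [true,true,false,true,false,false,true,false,true,true,false,true,true,false,false,true,false,true],
  [true,true,false,true,false,false,true,true,false,true,true,false,false,true,false,false,true,false],
  [true,true,false,true,false,false,true,true,false,true,true,false,false,true,false,true,true,false],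
  [true,true,false,true,false,false,true,true,false,true,true,false,true,false,false,true,false,false],
  [true,true,false,true,false,false,true,true,false,true,true,false,true,false,false,true,false,true],
  [true,true,false,true,true,false,false,true,false,false,true,false,true,true,false,false,true,false],
  [true,true,false,true,true,false,false,true,false,false,true,false,true,true,false,true,false,false],
  [true,true,false,true,true,false,false,true,false,false,true,false,true,true,false,true,true,false],
  [true,true,false,true,true,false,false,true,false,false,true,true,false,true,false,false,true,false],
  [true,true,false,true,true,false,false,true,false,true,true,false,true,false,false,true,false,false],
  [true,true,false,true,true,false,false,true,false,true,true,false,true,false,false,true,true,false],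
  [true,true,false,true,true,false,false,true,false,true,true,false,true,true,false,false,true,false],
  [true,true,false,true,true,false,true,false,false,true,false,false,true,true,false,true,false,false],
  [true,true,false,true,true,false,true,false,false,true,false,false,true,true,false,true,true,false],
  [true,true,false,true,true,false,true,false,false,true,false,true,true,false,false,true,false,false],
  [true,true,false,true,true,false,true,false,false,true,true,false,true,true,false,false,true,false]]

end Pool.Agent.Lib.MP_89c171_co
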