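import Pool.Agent.Lib.MP_89c171_co.Checks
import Pool.Agent.Lib.MP_89c171_co.Check10
import Pool.Agent.Lib.MP_89c171_co.Check14
import Pool.Agent.Lib.MP_89c171_co.Check18
import Pool.Agent.Lib.MP_89c171_co.Exists

namespace Pool.Agent.Lib.MP_89c171_co

variable {s : ℕ → ℕ}

theorem check_of_take {A : List (List Bool)} {n m M : ℕ} (hm : m ≤ M)
    (hA : ∀ k, win s k M ∈ A) (hc : (A.all fun v => check n (v.take m)) = true) (k : ℕ) :
    check n (win s k m) = true := by
  rw [List.all_eq_true] at hc
  have := hc _ (hA k)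
  rwa [take_win s m M k hm] at this

theorem check_of_mem {A : List (List Bool)} {n M : ℕ}
    (hA : ∀ k, win s k M ∈ A) (hc : (A.all fun v => check n v) = true) (k : ℕ) :
    check n (win s k M) = true := by
  rw [List.all_eq_true] at hc
  exact hc _ (hA k)

theorem window_odd (h : IsKolakoski s) (k L : ℕ) (h0 : 0 < L) (h1 : L < 20) (h2 : L ≠ 16) :
    ∃ m ≤ 17, ((runStart s)^[m] (k + L) - (runStart s)^[m] k) % 2 = 1 := by
  rcases Nat.even_or_odd L with he | ho
  · have hc : check 16 (win s k L) = true := by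
      have : L = 2 ∨ L = 4 ∨ L = 6 ∨ L = 8 ∨ L = 10 ∨ L = 12 ∨ L = 14 ∨ L = 18 := by
        obtain ⟨r, hr⟩ := he
        omega
      rcases this with rfl | rfl | rfl | rfl | rfl | rfl | rfl | rfl
      · exact check_of_take (by omega) (win14 h) chk2 k
      · exact check_of_take (by omega) (win14 h) chk4 k
      · exact check_of_take (by omega) (win14 h) chk6 k
      · exact check_of_take (by omega) (win14 h) chk8 k
      · exact check_of_mem (win10 h) chk10 k
      · exact check_of_take (by omega) (win14 h) chk12 k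
      · exact check_of_mem (win14 h) chk14 k
      · exact check_of_mem (win18 h) chk18 k
    exact check_sound h 16 k L hc
  · refine ⟨0, by omega, ?_⟩
    simpa using Nat.odd_iff.1 ho

theorem iterate_mono (s : ℕ → ℕ) (n : ℕ) : Monotone (runStart s)^[n] :=
  (runStart_mono s).iterate n

theorem integral_pair (s : ℕ → ℕ) (a b : ℕ) (hab : a ≤ b) :
    integral s (a, b - a) = (runStart s a, runStart s b - runStart s a) := by
  unfold integral
  simp only [Nat.add_sub_cancel' hab, Prod.mk.injEq, true_and]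
  have := Finset.sum_range_add_sum_Ico s hab
  unfold runStart
  omega

theorem iterate_integral (s : ℕ → ℕ) (n : ℕ) : ∀ a b : ℕ, a ≤ b →
    (integral s)^[n] (a, b - a) = ((runStart s)^[n] a, (runStart s)^[n] b - (runStart s)^[n] a) := by
  induction n with
  | zero => intro a b _; rfl
  | succ n ih =>
    intro a b hab
    rw [Function.iterate_succ_apply, integral_pair s a b hab, ih _ _ (runStart_mono s hab)]
    rfl

theorem parity_eq (s : ℕ → ℕ) (w : ℕ × ℕ) (n : ℕ) :
    parity s w n = ((runStart s)^[n] (w.1 + w.2) - (runStart s)^[n] w.1) % 2 := by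
  have := iterate_integral s n w.1 (w.1 + w.2) (Nat.le_add_right _ _)
  rw [Nat.add_sub_cancel_left] at this
  unfold parity
  rw [show w = (w.1, w.2) from rfl, this]

theorem boundary (h : IsKolakoski s) (a b : ℕ) (hab : a < b) (h1 : b - a < 20) (h2 : b - a ≠ 16) :
    ∃ m ≤ 17, ((runStart s)^[m] b) % 2 ≠ ((runStart s)^[m] a) % 2 := by
  obtain ⟨m, hm, hm'⟩ := window_odd h a (b - a) (by omega) h1 h2
  rw [Nat.add_sub_cancel' hab.le] at hm'
  exact ⟨m, hm, by have := iterate_mono s m hab.le; omega⟩

theorem boundary' (h : IsKolakoski s) (a b : ℕ) (hab : a ≠ b) (h1 : |(a : ℤ) - b| < 20)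
    (h2 : |(a : ℤ) - b| ≠ 16) :
    ∃ m ≤ 17, ((runStart s)^[m] b) % 2 ≠ ((runStart s)^[m] a) % 2 := by
  rcases Nat.lt_or_ge a b with h' | h'
  · rw [abs_sub_comm, abs_of_nonneg (by omega)] at h1 h2
    exact boundary h a b h' (by omega) (by omega)
  · rw [abs_of_nonneg (by omega)] at h1 h2
    obtain ⟨m, hm, hm'⟩ := boundary h b a (by omega) (by omega) (by omega)
    exact ⟨m, hm, hm'.symm⟩

/-- Two distinct rows (a row is given by its start and its length, which may be `0` here) with a
common boundary whose other boundaries are at distance `< 20` and `≠ 16` have different parity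
histories. -/
theorem pair_ne (h : IsKolakoski s) (u w : ℕ × ℕ) (huw : u ≠ w)
    (hcase : u.1 = w.1 ∧ |(u.2 : ℤ) - w.2| < 20 ∧ |(u.2 : ℤ) - w.2| ≠ 16 ∨
      u.1 + u.2 = w.1 + w.2 ∧ |(u.2 : ℤ) - w.2| < 20 ∧ |(u.2 : ℤ) - w.2| ≠ 16 ∨
      u.1 + u.2 = w.1 ∧ u.2 + w.2 < 20 ∧ u.2 + w.2 ≠ 16) :
    ∃ n ≤ 17, parity s u n ≠ parity s w n := by
  obtain ⟨k, L⟩ := u
  obtain ⟨k', L'⟩ := w
  simp only at hcase
  rcases hcase with ⟨rfl, h1, h2⟩ | ⟨he, h1, h2⟩ | ⟨rfl, h1, h2⟩
  · have hL : L ≠ L' := by rintro rfl; exact huw rfl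
    obtain ⟨m, hm, hm'⟩ := boundary' h (k + L) (k + L') (by omega)
      (by push_cast; rw [show (k : ℤ) + L - (k + L') = (L : ℤ) - L' by ring]; exact h1)
      (by push_cast; rw [show (k : ℤ) + L - (k + L') = (L : ℤ) - L' by ring]; exact h2)
    refine ⟨m, hm, ?_⟩
    rw [parity_eq, parity_eq]
    simp only
    have m1 := iterate_mono s m (show k ≤ k + L by omega)
    have m2 := iterate_mono s m (show k ≤ k + L' by omega)
    omega
  · have hk : k ≠ k' := by
      rintro rfl
      have : L = L' := by omega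
      exact huw (by rw [this])
    have hd : (k : ℤ) - k' = (L' : ℤ) - L := by
      have : (k : ℤ) + L = k' + L' := by exact_mod_cast he
      linarith
    obtain ⟨m, hm, hm'⟩ := boundary' h k k' hk
      (by rw [hd, abs_sub_comm]; exact h1) (by rw [hd, abs_sub_comm]; exact h2)
    refine ⟨m, hm, ?_⟩
    rw [parity_eq, parity_eq]
    simp only
    rw [← he]
    have m1 := iterate_mono s m (show k ≤ k + L by omega)
    have m2 := iterate_mono s m (show k' ≤ k + L by omega)
    omega
  · have h0 : 0 < L + L' := by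
      by_contra hc
      have e1 : L = 0 := by omega
      have e2 : L' = 0 := by omega
      subst e1 e2
      exact huw (by simp)
    obtain ⟨m, hm, hm'⟩ := boundary h k (k + L + L') (by omega) (by omega) (by omega)
    refine ⟨m, hm, ?_⟩
    rw [parity_eq, parity_eq]
    simp only
    have m1 := iterate_mono s m (show k ≤ k + L by omega)
    have m2 := iterate_mono s m (show k + L ≤ k + L + L' by omega)
    omega

end Pool.Agent.Lib.MP_89c171_co
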